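import Pool.Agent.Lib.MP_fe3493_lc.Dis

/-!
# MP_fe3493_lc: the size of the transitive closure and Hasse diagrams of maximum degree three

Definitions: `tcSize`, `arcs`, `IsHasse`, `Subcubic`, `Att`: `Pool/Agent/Lib/MP_fe3493_lc/Att.lean`; `Core`, `Arc`:
`Pool/Agent/Lib/MP_fe3493_lc/Core.lean`; `Gad`: `Pool/Agent/Lib/MP_fe3493_lc/Gad.lean`; `Cv`, `Cond`:
`Pool/Agent/Lib/MP_fe3493_lc/Cond.lean`.
-/

open Relation Pool.Agent.MP_fe3493

namespace Pool.Agent.Results.MP_fe3493_lc.SubcubicPosets

variable {V K : Type} [LinearOrder V] [LinearOrder K]

/-- `c` numbers the strong components of `r` in topological order: it is onto, it does not decrease along arcs, and if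
`c u = c v`, then `v` is reachable from `u` (and `u` from `v`). -/
structure IsNumbering (r : V → V → Prop) (c : V → K) : Prop where
  surj : Function.Surjective c
  mono : ∀ u v, r u v → c u ≤ c v
  comp : ∀ u v, c u = c v → ReflTransGen r u v

/-- The vertices of `Pos r c a b`: those of the cubic digraph of the condensation; if `a` is true, a source for every
vertex of `r`; if `b` is true, a sink for every vertex of `r`. -/
abbrev Vert (r : V → V → Prop) (c : V → K) (a b : Bool) : Type :=
  Core (Cond r c) ⊕ ({_v : V // a = true} ⊕ {_v : V // b = true})

/-- The cubic digraph of the condensation, with a source in front of `hin (src v)` for every vertex `v` of `r` if `a` is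
true, and a sink behind `hout (snk v)` for every vertex `v` of `r` if `b` is true. -/
def Pos (r : V → V → Prop) (c : V → K) (a b : Bool) : Vert r c a b → Vert r c a b → Prop :=
  Gad (Cond r c) (fun v : {_v : V // a = true} => Cv.src v.1) (fun v : {_v : V // b = true} => Cv.snk v.1)

/-- The disjoint union of the digraph with sources and sinks and of the one without. -/
def P (r : V → V → Prop) (c : V → K) :
    Vert r c true true ⊕ Vert r c false false → Vert r c true true ⊕ Vert r c false false → Prop :=
  Sum.LiftRel (Pos r c true true) (Pos r c false false)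

/-- The disjoint union of the digraph with sources only and of the one with sinks only. -/
def Q (r : V → V → Prop) (c : V → K) :
    Vert r c true false ⊕ Vert r c false true → Vert r c true false ⊕ Vert r c false true → Prop :=
  Sum.LiftRel (Pos r c true false) (Pos r c false true)

omit [LinearOrder V] in
private theorem card_flag [Fintype V] (a : Bool) : Nat.card {_v : V // a = true} = if a = true then Nat.card V else 0 := by
  have h2 := sum_flag a (fun _ : V => 1)
  simp only [Finset.sum_const, smul_eq_mul, mul_one, Finset.card_univ] at h2
  rw [Nat.card_eq_fintype_card, h2, Nat.card_eq_fintype_card]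

omit [LinearOrder V] in
private theorem card_vert [Fintype V] (r : V → V → Prop) (c : V → K) (hc : IsNumbering r c) (a b : Bool) :
    Nat.card (Vert r c a b) ≤ 12 * Nat.card V + 3 * arcs r + (if a = true then Nat.card V else 0) +
      (if b = true then Nat.card V else 0) := by
  have : Finite K := Finite.of_surjective c hc.surj
  have : Finite (Cv V K) := finite_cv
  have : Finite (Core (Cond r c)) := finite_core _
  have h3 : Nat.card K ≤ Nat.card V := Nat.card_le_card_of_surjective c hc.surj
  have h4 := arcs_cond r c
  rw [Nat.card_sum, Nat.card_sum, card_core, Nat.card_congr cvEquiv, Nat.card_sum, Nat.card_sum, card_flag a, card_flag b]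
  omega

private theorem size [Fintype V] (r : V → V → Prop) (c : V → K) (hc : IsNumbering r c) :
    tcSize r + tcSize (Pos r c true false) + tcSize (Pos r c false true) =
      tcSize (Pos r c true true) + tcSize (Pos r c false false) := by
  have : Finite K := Finite.of_surjective c hc.surj
  have : Finite (Cv V K) := finite_cv
  have : Finite (Core (Cond r c)) := finite_core _
  have : Fintype (Core (Cond r c)) := Fintype.ofFinite _
  have : Fintype (Cv V K) := Fintype.ofFinite _
  have h : ∀ a b, tcSize (Pos r c a b) = tcSize (Arc (Cond r c)) +
      (if a = true then ∑ v : V, ∑ y, ind (ReflTransGen (Arc (Cond r c)) (Core.hin (Cv.src v)) y) else 0) +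
      (if b = true then ∑ v : V, ∑ x, ind (ReflTransGen (Arc (Cond r c)) x (Core.hout (Cv.snk v))) else 0) +
      (if a = true then if b = true then tcSize r else 0 else 0) +
      (if a = true then Nat.card V else 0) + (if b = true then Nat.card V else 0) := by
    intro a b
    have h3 : (∑ u : {_v : V // a = true}, ∑ v : {_v : V // b = true},
        ind (ReflTransGen (Arc (Cond r c)) (Core.hin (Cv.src u.1)) (Core.hout (Cv.snk v.1)))) =
        if a = true then if b = true then tcSize r else 0 else 0 := by
      have h4 : ∀ u v : V, ReflTransGen (Arc (Cond r c)) (Core.hin (Cv.src u)) (Core.hout (Cv.snk v)) ↔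
          ReflTransGen r u v := fun u v => (hin_hout (Cond r c) _ _).trans (cond_reach r c hc.comp u v)
      simp only [h4]
      rw [sum_flag a (fun u => ∑ v : {_v : V // b = true}, ind (ReflTransGen r u v.1))]
      have h5 : ∀ u : V, (∑ v : {_v : V // b = true}, ind (ReflTransGen r u v.1)) =
          if b = true then ∑ v, ind (ReflTransGen r u v) else 0 :=
        fun u => sum_flag b (fun v => ind (ReflTransGen r u v))
      simp only [h5]
      unfold tcSize
      rw [cnt_eq]
      cases a <;> cases b <;> simp
    unfold Pos Gad
    rw [tcSize_att, ← Nat.card_eq_fintype_card, ← Nat.card_eq_fintype_card, card_flag a, card_flag b, h3,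
      sum_flag a (fun v => ∑ y, ind (ReflTransGen (Arc (Cond r c)) (Core.hin (Cv.src v)) y)),
      sum_flag b (fun v => ∑ x, ind (ReflTransGen (Arc (Cond r c)) x (Core.hout (Cv.snk v))))]
  rw [h true true, h true false, h false true, h false false]
  simp only [if_true, Bool.false_eq_true, if_false]
  omega

/-- Let `r` be a digraph with `n` vertices and `m` arcs. Its strong components can be numbered in topological order. For
every such numbering `c` the digraphs `P r c` and `Q r c` are Hasse diagrams of partially ordered sets, of maximum degree
three, with at most `26 n + 6 m` vertices, and the size of the transitive closure of `r` is the difference of the sizes of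
the transitive closures of `P r c` and `Q r c`. -/
theorem result {V : Type} [Fintype V] [LinearOrder V] (r : V → V → Prop) :
    (∃ (K : Type) (_ : LinearOrder K) (c : V → K), IsNumbering r c) ∧
      ∀ (K : Type) [LinearOrder K] (c : V → K), IsNumbering r c →
        (IsHasse (P r c) ∧ Subcubic (P r c) ∧
          Nat.card (Vert r c true true ⊕ Vert r c false false) ≤ 26 * Nat.card V + 6 * arcs r) ∧
        (IsHasse (Q r c) ∧ Subcubic (Q r c) ∧
          Nat.card (Vert r c true false ⊕ Vert r c false true) ≤ 26 * Nat.card V + 6 * arcs r) ∧
        tcSize r + tcSize (Q r c) = tcSize (P r c) := by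
  constructor
  · obtain ⟨K, hK, c, h1, h2, h3⟩ := exists_numbering r
    exact ⟨K, hK, c, h1, h2, h3⟩
  · intro K _ c hc
    have : Finite K := Finite.of_surjective c hc.surj
    have : Finite (Cv V K) := finite_cv
    have : Finite (Core (Cond r c)) := finite_core _
    have hsrc : ∀ a : Bool, Function.Injective (fun v : {_v : V // a = true} => (Cv.src v.1 : Cv V K)) :=
      fun a u v h => Subtype.ext (Cv.src.inj h)
    have hsnk : ∀ a : Bool, Function.Injective (fun v : {_v : V // a = true} => (Cv.snk v.1 : Cv V K)) :=
      fun a u v h => Subtype.ext (Cv.snk.inj h)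
    have hH : ∀ a b, IsHasse (Pos r c a b) := fun a b => gad_isHasse _ _ _ (cond_lt r c hc.mono)
    have hS : ∀ a b, Subcubic (Pos r c a b) := fun a b => gad_subcubic _ _ _ (hsrc a) (hsnk b)
    have hN : ∀ a b, Finite (Vert r c a b) := fun a b => inferInstance
    have h0 := size r c hc
    refine ⟨⟨isHasse_dis (hH _ _) (hH _ _), subcubic_dis (hS _ _) (hS _ _), ?_⟩,
      ⟨isHasse_dis (hH _ _) (hH _ _), subcubic_dis (hS _ _) (hS _ _), ?_⟩, ?_⟩
    · rw [Nat.card_sum]
      have h1 := card_vert r c hc true true
      have h2 := card_vert r c hc false false
      simp only [if_true, Bool.false_eq_true, if_false] at h1 h2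
      omega
    · rw [Nat.card_sum]
      have h1 := card_vert r c hc true false
      have h2 := card_vert r c hc false true
      simp only [if_true, Bool.false_eq_true, if_false] at h1 h2
      omega
    · unfold P Q
      rw [tcSize_dis, tcSize_dis]
      omega

end Pool.Agent.Results.MP_fe3493_lc.SubcubicPosets
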